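import Pool.Agent.Helper59.EAM.PARITY

/-!
# EAM2, part GAUGE: the network is unfrustrated
-/

set_option autoImplicit false

namespace Pool.Agent.Helper59.EAM

open Pool.H47EA Pool.Agent.Helper35.EAM Pool.Agent.Helper35.EAM2

theorem nq_lt (J : Coupling 3) (s : ℤ × ℤ) (j : Fin 4) : nq J s j < 60 := by
  unfold nq
  split_ifs with h
  · exact (Classical.choose_spec h).1
  · norm_num

theorem nq_prod {J : Coupling 3} {s : ℤ × ℤ} (hs : GC J s) (j : Fin 4) :
    prodJ J s j (nq J s j) = 1 := by
  unfold nq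
  rw [dif_pos (hs j)]
  exact (Classical.choose_spec (hs j)).2

theorem Jc_pm (J : Coupling 3) {x y : Site 3} (h : dist1 x y = 1) : Jc J x y = 1 ∨ Jc J x y = -1 := by
  unfold Jc
  rw [dif_pos (show (lat 3).Adj x y from h)]
  unfold sg
  split_ifs
  · exact Or.inl rfl
  · exact Or.inr rfl

/-- the product of the first `k` couplings of a side -/
noncomputable def pr (J : Coupling 3) (s : ℤ × ℤ) (j : Fin 4) (k : ℕ) : ℝ :=
  ∏ l ∈ Finset.range k, Jc J (P s j (nq J s j) l) (P s j (nq J s j) (l + 1))

theorem pr_pm (hA : S_ADJ) (J : Coupling 3) (s : ℤ × ℤ) (j : Fin 4) (k : ℕ) (hk : k ≤ 246) :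
    pr J s j k = 1 ∨ pr J s j k = -1 := by
  induction k with
  | zero => left; simp [pr]
  | succ k ih =>
    have h1 := Jc_pm J ((hA (nq J) (nq_lt J)).1 s j k (by omega))
    have h2 : pr J s j (k + 1) = pr J s j k *
        Jc J (P s j (nq J s j) k) (P s j (nq J s j) (k + 1)) := by
      unfold pr; rw [Finset.prod_range_succ]
    rw [h2]
    rcases ih (by omega) with h | h <;> rcases h1 with h' | h' <;> rw [h, h'] <;> norm_num

theorem t_GAUGE (hR : S_REP) (hA : S_ADJ) : S_GAUGE := by
  classical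
  intro J n
  have hnt := nq_lt J
  let R : Site 3 → (ℤ × ℤ) → Fin 4 → ℕ → Prop := fun x s j k =>
    0 < k ∧ k < 246 ∧ P s j (nq J s j) k = x
  let g : Site 3 → Bool := fun x =>
    if ∃ s j k, R x s j k ∧ pr J s j k ≠ 1 then false else true
  have hgint : ∀ s j k, 0 < k → k < 246 → sg (g (P s j (nq J s j) k)) = pr J s j k := by
    intro s j k h0 h1
    by_cases hp : pr J s j k = 1
    · have : g (P s j (nq J s j) k) = true := by
        simp only [g]
        rw [if_neg]
        rintro ⟨s', j', k', ⟨h0', h1', h⟩, hp'⟩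
        obtain ⟨rfl, rfl, rfl⟩ := hR (nq J) hnt s' s j' j k' k h0' h1' h1.le h
        exact hp' hp
      rw [this, hp]; rfl
    · have : g (P s j (nq J s j) k) = false := by
        simp only [g]
        rw [if_pos]
        exact ⟨s, j, k, ⟨h0, h1, rfl⟩, hp⟩
      rw [this, (pr_pm hA J s j k h1.le).resolve_left hp]; rfl
  have hgcrn : ∀ u v, g (crn u v) = true := by
    intro u v
    simp only [g]
    rw [if_neg]
    rintro ⟨s', j', k', ⟨h0', h1', h⟩, -⟩
    exact P_ne_crn hR (nq J) hnt s' j' k' h0' h1' u v h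
  have hgall : ∀ s ∈ gcells J n, ∀ j k, k ≤ 246 → sg (g (P s j (nq J s j) k)) = pr J s j k := by
    intro s hs j k hk
    by_cases h0 : 0 < k
    · by_cases h1 : k < 246
      · exact hgint s j k h0 h1
      · have : k = 246 := by omega
        subst this
        obtain ⟨u, v, huv⟩ := En_crn s j true
        have e1 := P_En (nq J) hnt s j true
        simp only [if_true] at e1
        rw [e1, huv, hgcrn]
        have e2 : pr J s j 246 = 1 := by
          unfold gcells at hs
          exact nq_prod (Finset.mem_filter.mp hs).2 j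
        rw [e2]; rfl
    · have : k = 0 := by omega
      subst this
      obtain ⟨u, v, huv⟩ := En_crn s j false
      have e1 := P_En (nq J) hnt s j false
      simp only [Bool.false_eq_true, if_false] at e1
      rw [e1, huv, hgcrn]
      simp [pr, sg]
  have hstep : ∀ s ∈ gcells J n, ∀ j k, k < 246 →
      Jc J (P s j (nq J s j) k) (P s j (nq J s j) (k + 1)) =
        sg (g (P s j (nq J s j) k)) * sg (g (P s j (nq J s j) (k + 1))) := by
    intro s hs j k hk
    rw [hgall s hs j k hk.le, hgall s hs j (k + 1) hk]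
    have h2 : pr J s j (k + 1) = pr J s j k *
        Jc J (P s j (nq J s j) k) (P s j (nq J s j) (k + 1)) := by
      unfold pr; rw [Finset.prod_range_succ]
    rw [h2]
    rcases pr_pm hA J s j k hk.le with h | h <;> rw [h] <;> ring
  refine ⟨g, hgcrn, ?_⟩
  intro x hx y hy hd
  unfold Ln at hx hy
  obtain ⟨hx1, hx2⟩ := Finset.mem_sdiff.mp hx
  have hy1 : y ∈ An (gcells J n) (nq J) n := by
    rcases Finset.mem_union.mp hy with h | h
    · exact (Finset.mem_sdiff.mp h).1
    · exact mem_An.mpr (Or.inr h)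
  rcases mem_An.mp hx1 with ⟨s, hs, j, k, hk, rfl⟩ | hb
  swap
  · exact absurd hb hx2
  obtain ⟨t, ht, i, l, hl, h⟩ := nbr_An hA hnt hs hk hy1 hd
  rcases h with ⟨h1, h2⟩ | ⟨h1, h2⟩
  · rw [h1, h2]; exact hstep t ht i l hl
  · rw [h1, h2, Jc_comm, hstep t ht i l hl, mul_comm]

end Pool.Agent.Helper59.EAM
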