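import Pool.Agent.Helper35.EAM.Spec2

/-!
# EAM2: basic facts on the cells (for PARITY and GAUGE)
-/

set_option autoImplicit false

namespace Pool.Agent.Helper59.EAM

open Pool.H47EA Pool.Agent.Helper35.EAM Pool.Agent.Helper35.EAM2

theorem mem_nbr' {d : ℕ} {x y : Site d} : y ∈ nbr x ↔ dist1 x y = 1 := by
  unfold nbr
  rw [Finset.mem_filter, Finset.mem_Icc]
  constructor
  · exact fun h => h.2
  · intro h
    have hi : ∀ i, (x i - y i).natAbs ≤ 1 := by
      intro i
      rw [← h]
      unfold dist1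
      exact Finset.single_le_sum (f := fun i => (x i - y i).natAbs) (fun _ _ => Nat.zero_le _)
        (Finset.mem_univ i)
    refine ⟨⟨fun i => ?_, fun i => ?_⟩, h⟩
    · have := hi i
      show x i - 1 ≤ y i
      omega
    · have := hi i
      show y i ≤ x i + 1
      omega

theorem dist1_comm' {d : ℕ} (x y : Site d) : dist1 x y = dist1 y x := by
  unfold dist1
  apply Finset.sum_congr rfl
  intro i _
  rw [← Int.natAbs_neg, neg_sub]

theorem lp_zero (q : ℕ) : Pool.Agent.Helper35.EAM2.lp q 0 = (0, 0) := by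
  unfold Pool.Agent.Helper35.EAM2.lp; simp

theorem lp_last (q : ℕ) (hq : q < 60) : Pool.Agent.Helper35.EAM2.lp q 246 = (244, 0) := by
  unfold Pool.Agent.Helper35.EAM2.lp
  rw [if_neg (by omega), if_neg (by omega), if_neg (by omega), if_neg (by omega)]
  norm_num

theorem P_zero (s : ℤ × ℤ) (j : Fin 4) (q : ℕ) : P s j q 0 = loc s j (0, 0) := by
  unfold P; rw [lp_zero]

theorem P_last (s : ℤ × ℤ) (j : Fin 4) (q : ℕ) (hq : q < 60) :
    P s j q 246 = loc s j (244, 0) := by
  unfold P; rw [lp_last q hq]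

/-- the end points of the sides: each corner is the end point of two sides -/
def En (s : ℤ × ℤ) (j : Fin 4) (e : Bool) : Site 3 := loc s j (if e then 244 else 0, 0)

theorem En0f (s : ℤ × ℤ) : En s 0 false = En s 2 false := by
  unfold En loc; simp

theorem En0t (s : ℤ × ℤ) : En s 0 true = En s 3 false := by
  unfold En loc; simp

theorem En1f (s : ℤ × ℤ) : En s 1 false = En s 2 true := by
  unfold En loc; simp

theorem En1t (s : ℤ × ℤ) : En s 1 true = En s 3 true := by
  unfold En loc; simp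

theorem En_crn (s : ℤ × ℤ) (j : Fin 4) (e : Bool) : ∃ u v, En s j e = crn u v := by
  fin_cases j <;> cases e
  · exact ⟨2 * s.1 - s.2, s.2, by unfold En loc crn; simp⟩
  · exact ⟨2 * s.1 - s.2 + 1, s.2, by unfold En loc crn; simp; ring⟩
  · exact ⟨2 * s.1 - s.2, s.2 + 1, by unfold En loc crn; simp; ring⟩
  · exact ⟨2 * s.1 - s.2 + 1, s.2 + 1, by unfold En loc crn; simp; constructor <;> ring⟩
  · exact ⟨2 * s.1 - s.2, s.2, by unfold En loc crn; simp⟩
  · exact ⟨2 * s.1 - s.2, s.2 + 1, by unfold En loc crn; simp; ring⟩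
  · exact ⟨2 * s.1 - s.2 + 1, s.2, by unfold En loc crn; simp; ring⟩
  · exact ⟨2 * s.1 - s.2 + 1, s.2 + 1, by unfold En loc crn; simp; constructor <;> ring⟩

theorem crn_En (u v : ℤ) : ∃ s j e, crn u v = En s j e := by
  rcases Int.emod_two_eq_zero_or_one (u + v) with h | h
  · refine ⟨((u + v) / 2, v), 0, false, ?_⟩
    have : 2 * ((u + v) / 2) - v = u := by omega
    unfold En loc crn
    simp [this]
  · refine ⟨((u + v - 1) / 2, v), 0, true, ?_⟩
    have : 2 * ((u + v - 1) / 2) - v = u - 1 := by omega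
    unfold En loc crn
    simp [this]
    ring

/-- the end points as points of the sides -/
theorem P_En (nt : ℤ × ℤ → Fin 4 → ℕ) (hnt : ∀ s j, nt s j < 60) (s : ℤ × ℤ) (j : Fin 4)
    (e : Bool) : P s j (nt s j) (if e then 246 else 0) = En s j e := by
  cases e
  · simp only [Bool.false_eq_true, if_false]
    rw [P_zero]; rfl
  · simp only [if_true]
    rw [P_last _ _ _ (hnt s j)]; rfl

/-- interior points are not corners -/
theorem P_ne_crn (hR : S_REP) (nt : ℤ × ℤ → Fin 4 → ℕ) (hnt : ∀ s j, nt s j < 60)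
    (s : ℤ × ℤ) (j : Fin 4) (k : ℕ) (h0 : 0 < k) (h1 : k < 246) (u v : ℤ) :
    P s j (nt s j) k ≠ crn u v := by
  intro h
  obtain ⟨t, i, e, he⟩ := crn_En u v
  rw [he, ← P_En nt hnt] at h
  have h2 := hR nt hnt s t j i k _ h0 h1 (by cases e <;> simp) h
  cases e <;> simp at h2 <;> omega

end Pool.Agent.Helper59.EAM
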