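import Pool.Agent.Helper59.EAM.NB

/-!
# EAM2, part PARITY: every free node has an even number of neighbours in the network
-/

set_option autoImplicit false

namespace Pool.Agent.Helper59.EAM

open Pool.H47EA Pool.Agent.Helper35.EAM Pool.Agent.Helper35.EAM2

theorem mem_An {G : Finset (ℤ × ℤ)} {nt : ℤ × ℤ → Fin 4 → ℕ} {n : ℕ} {x : Site 3} :
    x ∈ An G nt n ↔ (∃ s ∈ G, ∃ j k, k ≤ 246 ∧ P s j (nt s j) k = x) ∨ x ∈ Bdn n := by
  unfold An
  rw [Finset.mem_union, Finset.mem_biUnion]
  constructor
  · rintro (⟨s, hs, h⟩ | h)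
    · rw [Finset.mem_biUnion] at h
      obtain ⟨j, -, h⟩ := h
      obtain ⟨k, hk, h⟩ := Finset.mem_image.mp h
      exact Or.inl ⟨s, hs, j, k, by have := Finset.mem_range.mp hk; omega, h⟩
    · exact Or.inr h
  · rintro (⟨s, hs, j, k, hk, h⟩ | h)
    · refine Or.inl ⟨s, hs, ?_⟩
      rw [Finset.mem_biUnion]
      exact ⟨j, Finset.mem_univ _, Finset.mem_image.mpr ⟨k, Finset.mem_range.mpr (by omega), h⟩⟩
    · exact Or.inr h

theorem Bdn_crn {n : ℕ} {x : Site 3} (h : x ∈ Bdn n) : ∃ u v, x = crn u v := by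
  unfold Bdn at h
  obtain ⟨c, -, h⟩ := Finset.mem_image.mp h
  exact ⟨c, n, h.symm⟩

/-- neighbours in the network -/
theorem nbr_An (hA : S_ADJ) {nt : ℤ × ℤ → Fin 4 → ℕ} (hnt : ∀ s j, nt s j < 60)
    {G : Finset (ℤ × ℤ)} {n : ℕ} {s : ℤ × ℤ} (hs : s ∈ G) {j : Fin 4} {k : ℕ} (hk : k ≤ 246)
    {y : Site 3} (hy : y ∈ An G nt n) (hd : dist1 (P s j (nt s j) k) y = 1) :
    ∃ t ∈ G, ∃ (i : Fin 4) (l : ℕ), l < 246 ∧
      ((P s j (nt s j) k = P t i (nt t i) l ∧ y = P t i (nt t i) (l + 1)) ∨
        (y = P t i (nt t i) l ∧ P s j (nt s j) k = P t i (nt t i) (l + 1))) := by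
  obtain ⟨-, h2, h3⟩ := hA nt hnt
  rcases mem_An.mp hy with ⟨s', hs', j', k', hk', rfl⟩ | hb
  · obtain ⟨t, i, l, ht, hl, h⟩ := h2 s s' j j' k k' hk hk' hd
    exact ⟨t, by rcases ht with rfl | rfl <;> assumption, i, l, hl, h⟩
  · obtain ⟨u, v, rfl⟩ := Bdn_crn hb
    rcases h3 s j k u v hk hd with ⟨rfl, h⟩ | ⟨rfl, h⟩
    · exact ⟨s, hs, j, 0, by norm_num, Or.inr ⟨h, rfl⟩⟩
    · exact ⟨s, hs, j, 245, by norm_num, Or.inl ⟨rfl, h⟩⟩

theorem t_PARITY (hR : S_REP) (hA : S_ADJ) : S_PARITY := by
  classical
  intro nt hnt n G _ x hx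
  obtain ⟨hx1, hx2⟩ := Finset.mem_sdiff.mp hx
  rcases mem_An.mp hx1 with ⟨s, hs, j, k, hk, rfl⟩ | hb
  swap
  · exact absurd hb hx2
  by_cases hint : 0 < k ∧ k < 246
  · obtain ⟨h0, h1⟩ := hint
    have hset : nbr (P s j (nt s j) k) ∩ An G nt n =
        {P s j (nt s j) (k - 1), P s j (nt s j) (k + 1)} := by
      ext y
      rw [Finset.mem_inter, mem_nbr', Finset.mem_insert, Finset.mem_singleton]
      constructor
      · rintro ⟨hd, hy⟩
        obtain ⟨t, ht, i, l, hl, h⟩ := nbr_An hA hnt hs hk hy hd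
        rcases h with ⟨h, hy⟩ | ⟨hy, h⟩
        · obtain ⟨rfl, rfl, rfl⟩ := hR nt hnt s t j i k l h0 h1 (by omega) h
          exact Or.inr hy
        · obtain ⟨rfl, rfl, rfl⟩ := hR nt hnt s t j i k (l + 1) h0 h1 (by omega) h
          exact Or.inl (by simpa using hy)
      · rintro (rfl | rfl)
        · constructor
          · have := (hA nt hnt).1 s j (k - 1) (by omega)
            rw [Nat.sub_add_cancel (by omega)] at this
            rw [dist1_comm']; exact this
          · exact mem_An.mpr (Or.inl ⟨s, hs, j, k - 1, by omega, rfl⟩)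
        · exact ⟨(hA nt hnt).1 s j k h1, mem_An.mpr (Or.inl ⟨s, hs, j, k + 1, by omega, rfl⟩)⟩
    have hne : P s j (nt s j) (k - 1) ≠ P s j (nt s j) (k + 1) := by
      intro h
      by_cases hk1 : 0 < k - 1
      · have := (hR nt hnt s s j j (k - 1) (k + 1) hk1 (by omega) (by omega) h).2.2
        omega
      · have := (hR nt hnt s s j j (k + 1) (k - 1) (by omega) (by omega) (by omega) h.symm).2.2
        omega
    rw [hset, Finset.card_pair hne]
    exact ⟨⟨1, rfl⟩, le_rfl⟩
  · -- corners
    obtain ⟨e0, he0⟩ : ∃ e0 : Bool, k = if e0 then 246 else 0 := by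
      by_cases h : k = 0
      · exact ⟨false, by simpa using h⟩
      · exact ⟨true, by simp; omega⟩
    subst he0
    rw [P_En nt hnt] at hx2 ⊢
    set x := En s j e0 with hx
    -- the triples
    let Tr : Finset ((ℤ × ℤ) × (Fin 4 × Bool)) :=
      (G ×ˢ Finset.univ).filter fun a => En a.1 a.2.1 a.2.2 = x
    let f : (ℤ × ℤ) × (Fin 4 × Bool) → Site 3 := fun a =>
      P a.1 a.2.1 (nt a.1 a.2.1) (if a.2.2 then 245 else 1)
    have hinj : Set.InjOn f (Tr : Set _) := by
      rintro ⟨t, i, e⟩ _ ⟨t', i', e'⟩ _ h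
      have h' : P t i (nt t i) (if e then 245 else 1) =
        P t' i' (nt t' i') (if e' then 245 else 1) := h
      obtain ⟨rfl, rfl, h3⟩ := hR nt hnt t t' i i' _ _ (by cases e <;> simp)
        (by cases e <;> simp) (by cases e' <;> simp) h'
      have : e = e' := by cases e <;> cases e' <;> simp at h3 ⊢
      rw [this]
    have hset : nbr x ∩ An G nt n = Tr.image f := by
      ext y
      rw [Finset.mem_inter, mem_nbr', Finset.mem_image]
      constructor
      · rintro ⟨hd, hy⟩
        rw [hx, ← P_En nt hnt] at hd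
        obtain ⟨t, ht, i, l, hl, h⟩ := nbr_An hA hnt hs (by cases e0 <;> simp) hy hd
        rw [P_En nt hnt, ← hx] at h
        rcases h with ⟨h, hy⟩ | ⟨hy, h⟩
        · have hl0 : l = 0 := by
            by_contra hl0
            obtain ⟨u, v, huv⟩ := En_crn s j e0
            exact P_ne_crn hR nt hnt t i l (by omega) hl u v (by rw [← h, ← huv])
          subst hl0
          refine ⟨(t, i, false), ?_, ?_⟩
          · simp only [Tr, Finset.mem_filter, Finset.mem_product, Finset.mem_univ, and_true]
            refine ⟨ht, ?_⟩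
            rw [← P_En nt hnt]
            simpa using h.symm
          · simp only [f, hy]; simp
        · have hl0 : l = 245 := by
            by_contra hl0
            obtain ⟨u, v, huv⟩ := En_crn s j e0
            exact P_ne_crn hR nt hnt t i (l + 1) (by omega) (by omega) u v (by rw [← h, ← huv])
          subst hl0
          refine ⟨(t, i, true), ?_, ?_⟩
          · simp only [Tr, Finset.mem_filter, Finset.mem_product, Finset.mem_univ, and_true]
            refine ⟨ht, ?_⟩
            rw [← P_En nt hnt]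
            simpa using h.symm
          · simp only [f, hy]; simp
      · rintro ⟨⟨t, i, e⟩, ha, rfl⟩
        simp only [Tr, Finset.mem_filter, Finset.mem_product, Finset.mem_univ, and_true] at ha
        obtain ⟨ht, ha⟩ := ha
        constructor
        · rw [← ha, ← P_En nt hnt]
          cases e
          · simpa [f] using (hA nt hnt).1 t i 0 (by norm_num)
          · rw [dist1_comm']
            simpa [f] using (hA nt hnt).1 t i 245 (by norm_num)
        · exact mem_An.mpr (Or.inl ⟨t, ht, i, _, by cases e <;> simp, rfl⟩)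
    have hcard : (nbr x ∩ An G nt n).card = ∑ t ∈ G, 2 *
        ((if En t 0 false = x then 1 else 0) + (if En t 0 true = x then 1 else 0) +
          (if En t 1 false = x then 1 else 0) + (if En t 1 true = x then 1 else 0)) := by
      rw [hset, Finset.card_image_of_injOn hinj, Finset.card_filter, Finset.sum_product]
      refine Finset.sum_congr rfl fun t _ => ?_
      rw [Fintype.sum_prod_type]
      simp only [Fintype.sum_bool, Fin.sum_univ_four]
      rw [← En0f t, ← En0t t, ← En1f t, ← En1t t]
      ring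
    rw [hcard, ← Finset.mul_sum]
    refine ⟨even_two_mul _, ?_⟩
    have h1 : 1 ≤ (if En s 0 false = x then 1 else 0) + (if En s 0 true = x then 1 else 0) +
          (if En s 1 false = x then 1 else 0) + (if En s 1 true = x then 1 else 0) := by
      have key : x = En s 0 false ∨ x = En s 0 true ∨ x = En s 1 false ∨ x = En s 1 true := by
        rw [hx]
        fin_cases j <;> cases e0
        · exact Or.inl rfl
        · exact Or.inr (Or.inl rfl)
        · exact Or.inr (Or.inr (Or.inl rfl))
        · exact Or.inr (Or.inr (Or.inr rfl))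
        · exact Or.inl (En0f s).symm
        · exact Or.inr (Or.inr (Or.inl (En1f s).symm))
        · exact Or.inr (Or.inl (En0t s).symm)
        · exact Or.inr (Or.inr (Or.inr (En1t s).symm))
      rcases key with h | h | h | h <;> rw [if_pos h.symm] <;> omega
    have h2 := Finset.single_le_sum (f := fun t => (if En t 0 false = x then 1 else 0) +
      (if En t 0 true = x then 1 else 0) +
          (if En t 1 false = x then 1 else 0) + (if En t 1 true = x then 1 else 0))
      (fun _ _ => Nat.zero_le _) hs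
    omega

end Pool.Agent.Helper59.EAM
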